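import Pool.Agent.Run7.h177.TA.Iface

/-!
# Project TA (helper177), piece JET: linear combinations which vanish to a high order at given points
-/

set_option autoImplicit false

namespace Run7.h862.TA

open MvPolynomial Filter Topology Asymptotics Metric
open Run7.h177.TA

/-- The monomial with the exponents `μ`. -/
noncomputable def mn {w K : ℕ} (μ : Fin w → Fin K) : Fin w →₀ ℕ :=
  Finsupp.equivFunOnFinite.symm fun i => (μ i : ℕ)

theorem exists_mn {w K : ℕ} (m : Fin w →₀ ℕ) (hm : m.degree < K) :
    ∃ μ : Fin w → Fin K, mn μ = m := by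
  have h1 : ∀ i, m i < K := fun i => lt_of_le_of_lt (Finsupp.le_degree i m) hm
  refine ⟨fun i => ⟨m i, h1 i⟩, ?_⟩
  ext i
  rfl

theorem t_JET (hT : S_TAY) : S_JET := by
  intro w N K r c f hf hN
  have h1 : ∀ x j, ∃ H : MvPolynomial (Fin w) ℂ, (∀ m ∈ H.support, m.degree < K) ∧
      (fun t => f x j (c x + t) - eval t H) =O[𝓝 0] fun t => ‖t‖ ^ K := by
    intro x j
    refine (hT w).1 (fun t => f x j (c x + t)) ?_ K
    have h2 : AnalyticAt ℂ (fun t : Fin w → ℂ => c x + t) 0 := analyticAt_const.add analyticAt_id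
    have h3 : AnalyticAt ℂ (f x j) (c x + 0) := by
      rw [add_zero]
      exact hf x j
    exact h3.comp h2
  choose H hH1 hH2 using h1
  let L : (Fin N → ℂ) →ₗ[ℂ] (Fin r × (Fin w → Fin K) → ℂ) :=
    { toFun := fun a xm => ∑ j, a j * coeff (mn xm.2) (H xm.1 j)
      map_add' := fun a b => by
        ext xm
        simp only [Pi.add_apply, add_mul, Finset.sum_add_distrib]
      map_smul' := fun s a => by
        ext xm
        simp only [Pi.smul_apply, smul_eq_mul, RingHom.id_apply, Finset.mul_sum, mul_assoc] }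
  have hker : LinearMap.ker L ≠ ⊥ := by
    apply LinearMap.ker_ne_bot_of_finrank_lt
    simpa using hN
  obtain ⟨a, ha, ha0⟩ := (Submodule.ne_bot_iff _).1 hker
  refine ⟨a, ha0, fun x => ?_⟩
  have hG : ∑ j, C (a j) * H x j = 0 := by
    ext m
    rw [coeff_sum, coeff_zero]
    by_cases hm : m.degree < K
    · obtain ⟨μ, hμ⟩ := exists_mn m hm
      have h2 := congrFun (LinearMap.mem_ker.1 ha) (x, μ)
      have h3 : ∑ j, a j * coeff (mn μ) (H x j) = 0 := h2
      rw [← h3]
      refine Finset.sum_congr rfl fun j _ => ?_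
      rw [coeff_C_mul, hμ]
    · refine Finset.sum_eq_zero fun j _ => ?_
      rw [coeff_C_mul]
      have h4 : coeff m (H x j) = 0 := by
        by_contra h5
        exact hm (hH1 x j m (mem_support_iff.2 h5))
      rw [h4, mul_zero]
  have hev : ∀ t, ∑ j, a j * eval t (H x j) = 0 := by
    intro t
    have h2 := congrArg (eval t) hG
    rw [map_sum, map_zero] at h2
    rw [← h2]
    refine Finset.sum_congr rfl fun j _ => ?_
    rw [map_mul, eval_C]
  have h5 : (fun t => ∑ j, a j * f x j (c x + t)) =O[𝓝 0] fun t : Fin w → ℂ => ‖t‖ ^ K := by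
    have h6 : (fun t => ∑ j, a j * (f x j (c x + t) - eval t (H x j))) =O[𝓝 0]
        fun t : Fin w → ℂ => ‖t‖ ^ K := by
      have h9 := IsBigO.sum (s := Finset.univ) fun j (_ : j ∈ Finset.univ) =>
        (hH2 x j).const_mul_left (a j)
      refine h9.congr_left fun t => ?_
      rw [Finset.sum_apply]
    refine h6.congr_left fun t => ?_
    simp only [mul_sub, Finset.sum_sub_distrib, hev, sub_zero]
  have h7 : Tendsto (fun t : Fin w → ℂ => t - c x) (𝓝 (c x)) (𝓝 0) := by
    have : Tendsto (fun t : Fin w → ℂ => t - c x) (𝓝 (c x)) (𝓝 (c x - c x)) :=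
      (continuous_id.sub continuous_const).tendsto (c x)
    rwa [sub_self] at this
  have h8 := h5.comp_tendsto h7
  refine h8.congr_left fun t => ?_
  simp only [Function.comp_apply, add_sub_cancel]

end Run7.h862.TA
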