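import Pool.Agent.Run7.h177.TA.Iface

/-!
# Project TA (helper177), piece TAY: Taylor polynomials in several variables and their uniqueness
-/

set_option autoImplicit false

namespace Run7.h862.TA

open MvPolynomial Filter Topology Asymptotics Metric
open Run7.h177.TA

/-! ### Existence -/

/-- The homogeneous polynomial of a multilinear map. -/
noncomputable def hp {w k : ℕ} (p : ContinuousMultilinearMap ℂ (fun _ : Fin k => Fin w → ℂ) ℂ) :
    MvPolynomial (Fin w) ℂ :=
  ∑ σ : Fin k → Fin w, C (p fun j => Pi.single (σ j) 1) * ∏ j, X (σ j)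

theorem hp_hom {w k : ℕ} (p : ContinuousMultilinearMap ℂ (fun _ : Fin k => Fin w → ℂ) ℂ) :
    (hp p).IsHomogeneous k := by
  unfold hp
  refine IsHomogeneous.sum _ _ _ fun σ _ => ?_
  have h1 : (∏ j : Fin k, (X (σ j) : MvPolynomial (Fin w) ℂ)).IsHomogeneous (∑ _j : Fin k, 1) :=
    IsHomogeneous.prod _ _ _ fun j _ => isHomogeneous_X _ _
  have h2 := (isHomogeneous_C (Fin w) (p fun j => Pi.single (σ j) 1)).mul h1
  simpa using h2

theorem hp_eval {w k : ℕ} (p : ContinuousMultilinearMap ℂ (fun _ : Fin k => Fin w → ℂ) ℂ)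
    (y : Fin w → ℂ) : eval y (hp p) = p fun _ => y := by
  have h1 : y = ∑ i, y i • (Pi.single i (1 : ℂ) : Fin w → ℂ) := by
    ext j
    simp [Finset.sum_apply, Pi.single_apply]
  have h2 : (p fun _ => y) = ∑ σ : Fin k → Fin w, p fun j => y (σ j) • Pi.single (σ j) 1 := by
    conv_lhs => rw [h1]
    exact p.toMultilinearMap.map_sum _
  rw [h2]
  unfold hp
  rw [map_sum]
  refine Finset.sum_congr rfl fun σ _ => ?_
  have h3 := p.toMultilinearMap.map_smul_univ (fun j => y (σ j))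
    (fun j => (Pi.single (σ j) (1 : ℂ) : Fin w → ℂ))
  have h4 : (p fun j => y (σ j) • (Pi.single (σ j) (1 : ℂ) : Fin w → ℂ)) =
    (∏ j, y (σ j)) • p fun j => Pi.single (σ j) 1 := h3
  rw [h4, map_mul, map_prod, eval_C, smul_eq_mul, mul_comm]
  simp only [eval_X]

theorem tay1 (w : ℕ) (f : (Fin w → ℂ) → ℂ) (hf : AnalyticAt ℂ f 0) (N : ℕ) :
    ∃ H : MvPolynomial (Fin w) ℂ, (∀ m ∈ H.support, m.degree < N) ∧
      (fun t => f t - eval t H) =O[𝓝 0] fun t => ‖t‖ ^ N := by
  obtain ⟨p, hp1⟩ := hf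
  refine ⟨∑ k ∈ Finset.range N, hp (p k), fun m hm => ?_, ?_⟩
  · by_contra hcon
    rw [mem_support_iff, coeff_sum] at hm
    apply hm
    refine Finset.sum_eq_zero fun k hk => ?_
    refine (hp_hom (p k)).coeff_eq_zero ?_
    have := Finset.mem_range.1 hk
    omega
  · have h1 := hp1.isBigO_sub_partialSum_pow N
    refine h1.congr_left fun y => ?_
    rw [zero_add, map_sum]
    congr 1
    exact (Finset.sum_congr rfl fun k _ => hp_eval (p k) y).symm

/-! ### Uniqueness -/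

theorem xpow_dvd (N : ℕ) : ∀ q : Polynomial ℂ,
    (fun s : ℂ => q.eval s) =O[𝓝[≠] 0] (fun s => ‖s‖ ^ N) → Polynomial.X ^ N ∣ q := by
  induction N with
  | zero => intro q _; rw [pow_zero]; exact one_dvd q
  | succ N ih =>
    intro q hq
    have h0 : Tendsto (fun s : ℂ => ‖s‖ ^ (N + 1)) (𝓝[≠] 0) (𝓝 0) := by
      have : Tendsto (fun s : ℂ => ‖s‖ ^ (N + 1)) (𝓝 0) (𝓝 (‖(0 : ℂ)‖ ^ (N + 1))) :=
        (continuous_norm.pow (N + 1)).tendsto 0
      rw [norm_zero, zero_pow (Nat.succ_ne_zero N)] at this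
      exact this.mono_left nhdsWithin_le_nhds
    have h1 : Tendsto (fun s : ℂ => q.eval s) (𝓝[≠] 0) (𝓝 0) := hq.trans_tendsto h0
    have h2 : Tendsto (fun s : ℂ => q.eval s) (𝓝[≠] 0) (𝓝 (q.eval 0)) :=
      (q.continuous.tendsto 0).mono_left nhdsWithin_le_nhds
    have h3 : q.eval 0 = 0 := tendsto_nhds_unique h2 h1
    obtain ⟨q', rfl⟩ : Polynomial.X ∣ q := by
      rw [Polynomial.X_dvd_iff, Polynomial.coeff_zero_eq_eval_zero]
      exact h3
    rw [pow_succ']
    refine mul_dvd_mul_left _ (ih q' ?_)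
    rw [isBigO_iff] at hq ⊢
    obtain ⟨c, hc⟩ := hq
    refine ⟨c, ?_⟩
    filter_upwards [hc, self_mem_nhdsWithin] with s hs hs0
    have hs1 : 0 < ‖s‖ := norm_pos_iff.2 hs0
    rw [Polynomial.eval_mul, Polynomial.eval_X, norm_mul, norm_pow, norm_norm, pow_succ'] at hs
    rw [norm_pow, norm_norm]
    have h5 : ‖s‖ * ‖q'.eval s‖ ≤ ‖s‖ * (c * ‖s‖ ^ N) := by
      calc ‖s‖ * ‖q'.eval s‖ ≤ c * (‖s‖ * ‖s‖ ^ N) := hs
        _ = ‖s‖ * (c * ‖s‖ ^ N) := by ring
    exact le_of_mul_le_mul_left h5 hs1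

/-- The restriction of a polynomial to a line. -/
noncomputable def ln {w : ℕ} (t : Fin w → ℂ) (H : MvPolynomial (Fin w) ℂ) : Polynomial ℂ :=
  aeval (fun i => Polynomial.C (t i) * Polynomial.X) H

theorem ln_eval {w : ℕ} (t : Fin w → ℂ) (H : MvPolynomial (Fin w) ℂ) (s : ℂ) :
    (ln t H).eval s = eval (s • t) H := by
  unfold ln
  have h1 : (Polynomial.evalRingHom s).comp (aeval (R := ℂ)
      (fun i => Polynomial.C (t i) * Polynomial.X : Fin w → Polynomial ℂ)).toRingHom =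
      (eval (s • t) : MvPolynomial (Fin w) ℂ →+* ℂ) := by
    refine MvPolynomial.ringHom_ext (fun r => ?_) (fun i => ?_)
    · show Polynomial.eval s (aeval _ (C r)) = _
      rw [aeval_C, eval_C]
      exact Polynomial.eval_C
    · show Polynomial.eval s (aeval _ (X i)) = _
      rw [aeval_X, eval_X, Polynomial.eval_mul, Polynomial.eval_C, Polynomial.eval_X, mul_comm]
      rfl
  exact congrArg (fun φ : MvPolynomial (Fin w) ℂ →+* ℂ => φ H) h1

theorem ln_deg {w N : ℕ} (t : Fin w → ℂ) (H : MvPolynomial (Fin w) ℂ)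
    (hH : ∀ m ∈ H.support, m.degree < N) : (ln t H).degree < N := by
  rw [← Polynomial.mem_degreeLT]
  unfold ln
  rw [aeval_def, eval₂_eq']
  refine Submodule.sum_mem _ fun m hm => ?_
  have h1 : (algebraMap ℂ (Polynomial ℂ)) (coeff m H) *
      ∏ i, (Polynomial.C (t i) * Polynomial.X) ^ m i =
      Polynomial.C (coeff m H * ∏ i, t i ^ m i) * Polynomial.X ^ m.degree := by
    have h2 : (∏ i, (Polynomial.C (t i) * Polynomial.X) ^ m i : Polynomial ℂ) =
        Polynomial.C (∏ i, t i ^ m i) * Polynomial.X ^ m.degree := by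
      have h3 : ∀ i, (Polynomial.C (t i) * Polynomial.X) ^ m i =
          Polynomial.C (t i ^ m i) * Polynomial.X ^ m i := by
        intro i
        rw [mul_pow, ← Polynomial.C_pow]
      rw [Finset.prod_congr rfl fun i _ => h3 i, Finset.prod_mul_distrib, ← map_prod,
        Finset.prod_pow_eq_pow_sum, Finsupp.degree_eq_sum]
    rw [h2, map_mul]
    show Polynomial.C _ * _ = _
    ring
  rw [h1, Polynomial.mem_degreeLT]
  exact lt_of_le_of_lt (Polynomial.degree_C_mul_X_pow_le _ _) (by exact_mod_cast hH m hm)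

theorem tay2 (w N : ℕ) (H : MvPolynomial (Fin w) ℂ) (hH : ∀ m ∈ H.support, m.degree < N)
    (hO : (fun t => eval t H) =O[𝓝 0] (fun t : Fin w → ℂ => ‖t‖ ^ N)) : H = 0 := by
  apply MvPolynomial.funext
  intro t
  rw [map_zero]
  have h1 : (fun s : ℂ => (ln t H).eval s) =O[𝓝[≠] 0] (fun s => ‖s‖ ^ N) := by
    have h2 : Tendsto (fun s : ℂ => s • t) (𝓝[≠] 0) (𝓝 0) := by
      have : Tendsto (fun s : ℂ => s • t) (𝓝 0) (𝓝 ((0 : ℂ) • t)) :=
        (continuous_id.smul continuous_const).tendsto 0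
      rw [zero_smul] at this
      exact this.mono_left nhdsWithin_le_nhds
    have h3 := hO.comp_tendsto h2
    refine (h3.congr_left fun s => (ln_eval t H s).symm).trans ?_
    refine IsBigO.of_bound (‖t‖ ^ N) (Eventually.of_forall fun s => ?_)
    simp only [Function.comp_apply, norm_smul, mul_pow, norm_mul, norm_pow, norm_norm]
    rw [mul_comm]
  have h4 := xpow_dvd N _ h1
  have h5 : ln t H = 0 := by
    refine Polynomial.eq_zero_of_dvd_of_degree_lt h4 ?_
    rw [Polynomial.degree_X_pow]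
    exact ln_deg t H hH
  have h6 := ln_eval t H 1
  rw [h5, Polynomial.eval_zero, one_smul] at h6
  exact h6.symm

theorem t_TAY : S_TAY := fun w => ⟨fun f hf N => tay1 w f hf N, fun N H h1 h2 => tay2 w N H h1 h2⟩

end Run7.h862.TA
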